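import Pool.Agent.Lib.MP_0d5181_co.Final

set_option autoImplicit false

namespace Pool.Agent.Results.MP_0d5181_co.DilateApprox

/-- A fractional set: a finitely supported map from the integers to the unit interval. -/
def IsFractionalSet (α : ℤ → ℝ) : Prop :=
  (Function.support α).Finite ∧ ∀ n, 0 ≤ α n ∧ α n ≤ 1

/-- The size of a (finitely supported, nonnegative) map `γ`: the infimum over `0 < p < 1` of
the sum over all `n` of `(γ n) ^ p`. -/
noncomputable def size (γ : ℤ → ℝ) : ℝ :=
  ⨅ p : Set.Ioo (0 : ℝ) 1, ∑ᶠ n : ℤ, (γ n) ^ (p : ℝ)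

/-- The fractional dilate `α + k·α`: its value at `n` is the sum of `α i * α j` over all pairs
`(i, j)` with `i + k j = n`. -/
noncomputable def dilateSum (α : ℤ → ℝ) (k : ℤ) (n : ℤ) : ℝ :=
  ∑ᶠ (q : ℤ × ℤ) (_ : q.1 + k * q.2 = n), α q.1 * α q.2

/-- The finite set `S + k·S`. -/
def setDilateSum (S : Finset ℤ) (k : ℤ) : Finset ℤ :=
  (S ×ˢ S).image fun q => q.1 + k * q.2

open Pool.Agent.Lib.MP_0d5181_co

theorem size_eq_iInf (γ : ℤ → ℝ) (B : Finset ℤ) (hpos : ∀ m ∈ B, 0 < γ m)
    (hz : ∀ m, m ∉ B → γ m = 0) :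
    size γ = ⨅ p : Set.Ioo (0 : ℝ) 1, es B (fun m => Real.log (γ m)) p := by
  unfold size
  apply iInf_congr
  intro p
  have hsub : Function.support (fun n : ℤ => (γ n) ^ (p : ℝ)) ⊆ (B : Set ℤ) := by
    intro m hm
    by_contra hmB
    apply hm
    simp only
    rw [hz m hmB, Real.zero_rpow p.2.1.ne']
  rw [finsum_eq_sum_of_support_subset _ hsub]
  unfold es
  apply Finset.sum_congr rfl
  intro m hm
  rw [Real.rpow_def_of_pos (hpos m hm), mul_comm]

/-- The size of a fractional set is its mass. -/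
theorem size_eq_sum {α : ℤ → ℝ} (h : IsFractionalSet α) :
    size α = ∑ i ∈ h.1.toFinset, α i := by
  have hpos : ∀ i ∈ h.1.toFinset, 0 < α i := by
    intro i hi
    rw [Set.Finite.mem_toFinset] at hi
    exact lt_of_le_of_ne (h.2 i).1 (Ne.symm hi)
  have hz : ∀ i, i ∉ h.1.toFinset → α i = 0 := by
    intro i hi
    rw [Set.Finite.mem_toFinset] at hi
    simpa using hi
  rw [size_eq_iInf α h.1.toFinset hpos hz]
  have hone : es h.1.toFinset (fun m => Real.log (α m)) 1 = ∑ i ∈ h.1.toFinset, α i := by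
    unfold es
    apply Finset.sum_congr rfl
    intro i hi
    rw [one_mul, Real.exp_log (hpos i hi)]
  have hne : Nonempty (Set.Ioo (0 : ℝ) 1) := ⟨⟨1 / 2, by norm_num, by norm_num⟩⟩
  apply le_antisymm
  · rw [← hone]
    exact iInf_le_one continuous_es (fun p => Finset.sum_nonneg fun _ _ => (Real.exp_pos _).le)
  · apply le_ciInf
    intro p
    unfold es
    apply Finset.sum_le_sum
    intro i hi
    have h1 : Real.log (α i) ≤ 0 := Real.log_nonpos (h.2 i).1 (h.2 i).2
    calc α i = Real.exp (Real.log (α i)) := (Real.exp_log (hpos i hi)).symm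
      _ ≤ Real.exp (p * Real.log (α i)) := by
          apply Real.exp_le_exp.2
          nlinarith [p.2.2]

theorem dilateSum_eq_gam {α : ℤ → ℝ} {A : Finset ℤ} (hz : ∀ i, i ∉ A → α i = 0) (k m : ℤ) :
    dilateSum α k m = gam A α k m := by
  have h1 : dilateSum α k m = ∑ᶠ q ∈ {q : ℤ × ℤ | q.1 + k * q.2 = m}, α q.1 * α q.2 := rfl
  rw [h1, finsum_mem_eq_sum_of_inter_support_eq (fun q : ℤ × ℤ => α q.1 * α q.2)
    (t := A.image fun j => (m - k * j, j))]
  · rw [Finset.sum_image]
    · unfold gam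
      apply Finset.sum_congr rfl
      intro j _
      ring
    · intro x _ y _ h
      exact (Prod.mk.inj h).2
  · ext ⟨i, j⟩
    simp only [Set.mem_inter_iff, Function.mem_support, Finset.coe_image,
      Set.mem_image, Finset.mem_coe, Prod.mk.injEq]
    constructor
    · rintro ⟨h2, h3⟩
      refine ⟨⟨j, ?_, ?_, rfl⟩, h3⟩
      · by_contra hj
        exact h3 (by rw [hz j hj, mul_zero])
      · have h4 : i + k * j = m := h2
        linarith
    · rintro ⟨⟨j', _, h4, rfl⟩, h3⟩
      refine ⟨?_, h3⟩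
      show i + k * j' = m
      linarith

theorem data_of {α : ℤ → ℝ} (h : IsFractionalSet α) (h1 : 1 < size α) :
    Data h.1.toFinset α where
  pos := by
    intro i hi
    rw [Set.Finite.mem_toFinset] at hi
    exact lt_of_le_of_ne (h.2 i).1 (Ne.symm hi)
  le_one := fun i => (h.2 i).2
  zero := by
    intro i hi
    rw [Set.Finite.mem_toFinset] at hi
    simpa using hi
  big := by rw [← size_eq_sum h]; exact h1

theorem size_dilateSum {α : ℤ → ℝ} {A : Finset ℤ} (hD : Data A α) (k : ℤ) :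
    size (dilateSum α k) = ⨅ p : Set.Ioo (0 : ℝ) 1, es (BB A k) (lg A α k) p := by
  have h1 : dilateSum α k = gam A α k := by
    funext m
    exact dilateSum_eq_gam hD.zero k m
  rw [h1, size_eq_iInf (gam A α k) (BB A k) (fun m hm => gam_pos hD hm)]
  · rfl
  · intro m hm
    unfold gam
    apply Finset.sum_eq_zero
    intro j hj
    rw [hD.zero (m - k * j), mul_zero]
    intro h2
    apply hm
    rw [BB, Finset.mem_image₂]
    exact ⟨m - k * j, h2, j, hj, by ring⟩

/-- Every fractional set of size larger than one can be approximated, simultaneously for all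
`1 ≤ |k| ≤ N`, by a finite set of integers. -/
theorem result : ∀ α : ℤ → ℝ, IsFractionalSet α → 1 < size α →
    ∀ N : ℕ, 0 < N → ∀ ε : ℝ, 0 < ε →
    ∃ S : Finset ℤ, 2 ≤ S.card ∧ ∀ k : ℤ, 1 ≤ |k| → |k| ≤ N →
      |Real.log (size (dilateSum α k)) / Real.log (size α) -
        Real.log ((setDilateSum S k).card : ℝ) / Real.log (S.card : ℝ)| < ε := by
  intro α hα h1 N _ ε hε
  have hD := data_of hα h1
  obtain ⟨S, hS, h2⟩ := main hD N hε
  refine ⟨S, hS, ?_⟩
  intro k hk1 hk2
  rw [size_dilateSum hD k, size_eq_sum hα]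
  exact h2 k hk1 hk2

end Pool.Agent.Results.MP_0d5181_co.DilateApprox
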